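import Mathlib

/-! # MP_e65cda_an, Q1: the only good period of the periodic Lyness recursion is two -/

set_option autoImplicit false

namespace Pool.Agent.Results.MP_e65cda_an.OnlyPeriodTwo

/-- `x` is a positive solution of `x_{n+1} = (α_n + x_n)/x_{n-1}`; the terms `x_{-1}, x_0, x_1, …`
are `x 0, x 1, x 2, …`. -/
def IsPosSolution (α : ℕ → ℝ) (x : ℕ → ℝ) : Prop :=
  0 < x 0 ∧ 0 < x 1 ∧ ∀ n, x (n + 2) = (α n + x (n + 1)) / x n

/-- `p` is the least period of the sequence `α`. -/
def LeastPeriod (α : ℕ → ℝ) (p : ℕ) : Prop :=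
  0 < p ∧ (∀ n, α (n + p) = α n) ∧ ∀ q, 0 < q → q < p → ¬ ∀ n, α (n + q) = α n

/-- `p` is good: for all nonnegative coefficient sequences of least period `p`, all positive
solutions are bounded. -/
def Good (p : ℕ) : Prop :=
  ∀ α : ℕ → ℝ, (∀ n, 0 ≤ α n) → LeastPeriod α p → ∀ x : ℕ → ℝ, IsPosSolution α x →
    ∃ C, ∀ n, x n ≤ C

lemma pos_all {α x : ℕ → ℝ} (hα : ∀ n, 0 ≤ α n) (h : IsPosSolution α x) : ∀ n, 0 < x n := by
  have : ∀ n, 0 < x n ∧ 0 < x (n + 1) := by
    intro n
    induction n with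
    | zero => exact ⟨h.1, h.2.1⟩
    | succ n ih =>
      refine ⟨ih.2, ?_⟩
      rw [show n + 1 + 1 = n + 2 by ring, h.2.2 n]
      have := hα n
      exact div_pos (by linarith [ih.2]) ih.1
  exact fun n => (this n).1

/-! ### period two is good -/

lemma good_two : Good 2 := by
  intro α hα hper x hx
  have hpos := pos_all hα hx
  obtain ⟨a, ha⟩ : ∃ a, a = α 0 := ⟨_, rfl⟩
  obtain ⟨b, hb⟩ : ∃ b, b = α 1 := ⟨_, rfl⟩
  have hae : ∀ k, α (2 * k) = a := by
    intro k
    induction k with
    | zero => exact ha.symm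
    | succ k ih => rw [show 2 * (k + 1) = 2 * k + 2 by ring, hper.2.1, ih]
  have hbe : ∀ k, α (2 * k + 1) = b := by
    intro k
    induction k with
    | zero => exact hb.symm
    | succ k ih => rw [show 2 * (k + 1) + 1 = 2 * k + 1 + 2 by ring, hper.2.1, ih]
  have ha0 : 0 ≤ a := ha ▸ hα 0
  have hb0 : 0 ≤ b := hb ▸ hα 1
  have hab : a ≠ b := by
    intro hab
    apply hper.2.2 1 one_pos (by norm_num)
    intro n
    rcases Nat.even_or_odd' n with ⟨k, hk | hk⟩
    · rw [hk, hbe, hae, hab]
    · rw [hk, show 2 * k + 1 + 1 = 2 * (k + 1) by ring, hae, hbe, hab]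
  -- the invariant
  obtain ⟨I, hI⟩ : ∃ I : ℝ → ℝ → ℝ, I = fun X Y => a * X + b * Y + b * X / Y + a * Y / X +
    (a + b ^ 2) / Y + (a ^ 2 + b) / X + a * b / (X * Y) := ⟨_, rfl⟩
  have hinv : ∀ k, I (x (2 * k)) (x (2 * k + 1)) = I (x 0) (x 1) := by
    intro k
    induction k with
    | zero => rfl
    | succ k ih =>
      rw [← ih, show 2 * (k + 1) = 2 * k + 2 by ring, show 2 * k + 2 + 1 = 2 * k + 1 + 2 by ring,
        hx.2.2 (2 * k + 1), show 2 * k + 1 + 1 = 2 * k + 2 by ring, hx.2.2 (2 * k), hae, hbe]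
      have h1 := hpos (2 * k)
      have h2 := hpos (2 * k + 1)
      rw [hI]
      simp only
      generalize x (2 * k) = X at *
      generalize x (2 * k + 1) = Y at *
      have h3 : 0 < a + Y := by linarith
      have h4 : 0 < (a + Y) / X := by positivity
      have h5 : 0 < b + (a + Y) / X := by positivity
      have e : b + (a + Y) / X = (b * X + a + Y) / X := by field_simp; ring
      have h6 : 0 < b * X + a + Y := by
        have := mul_nonneg hb0 h1.le
        linarith
      rw [e]
      field_simp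
      ring
  obtain ⟨J, hJ⟩ : ∃ J, J = I (x 0) (x 1) := ⟨_, rfl⟩
  rw [← hJ] at hinv
  -- consequences of the invariant
  have hcons : ∀ k, a * x (2 * k) ≤ J ∧ b * x (2 * k + 1) ≤ J ∧
      b * x (2 * k) ≤ J * x (2 * k + 1) ∧ a * x (2 * k + 1) ≤ J * x (2 * k) := by
    intro k
    have h0 := hinv k
    have h1 := hpos (2 * k)
    have h2 := hpos (2 * k + 1)
    rw [hI] at h0
    simp only at h0
    generalize x (2 * k) = X at *
    generalize x (2 * k + 1) = Y at *
    have t1 : 0 ≤ a * X := by positivity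
    have t2 : 0 ≤ b * Y := by positivity
    have t3 : 0 ≤ b * X / Y := by positivity
    have t4 : 0 ≤ a * Y / X := by positivity
    have t5 : 0 ≤ (a + b ^ 2) / Y := by positivity
    have t6 : 0 ≤ (a ^ 2 + b) / X := by positivity
    have t7 : 0 ≤ a * b / (X * Y) := by positivity
    refine ⟨by linarith, by linarith, ?_, ?_⟩
    · have : b * X / Y ≤ J := by linarith
      rwa [div_le_iff₀ h2] at this
    · have : a * Y / X ≤ J := by linarith
      rwa [div_le_iff₀ h1] at this
  have hJ0 : 0 ≤ J := le_trans (mul_nonneg ha0 (hpos 0).le) (hcons 0).1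
  rcases eq_or_lt_of_le ha0 with h0 | h0
  · -- a = 0, b > 0
    have hbpos : 0 < b := lt_of_le_of_ne hb0 (by rw [h0]; exact hab)
    refine ⟨max (J / b) (J * (J / b) / b), fun n => ?_⟩
    rcases Nat.even_or_odd' n with ⟨k, hk | hk⟩
    · rw [hk]
      refine le_trans ?_ (le_max_right _ _)
      rw [le_div_iff₀ hbpos]
      have h1 := (hcons k).2.2.1
      have h2 : x (2 * k + 1) ≤ J / b := by
        rw [le_div_iff₀ hbpos]; linarith [(hcons k).2.1]
      have h3 := mul_le_mul_of_nonneg_left h2 hJ0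
      linarith
    · rw [hk]
      refine le_trans ?_ (le_max_left _ _)
      rw [le_div_iff₀ hbpos]
      linarith [(hcons k).2.1]
  · refine ⟨max (J / a) (J * (J / a) / a), fun n => ?_⟩
    rcases Nat.even_or_odd' n with ⟨k, hk | hk⟩
    · rw [hk]
      refine le_trans ?_ (le_max_left _ _)
      rw [le_div_iff₀ h0]
      linarith [(hcons k).1]
    · rw [hk]
      refine le_trans ?_ (le_max_right _ _)
      rw [le_div_iff₀ h0]
      have h1 := (hcons k).2.2.2
      have h2 : x (2 * k) ≤ J / a := by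
        rw [le_div_iff₀ h0]; linarith [(hcons k).1]
      have h3 := mul_le_mul_of_nonneg_left h2 hJ0
      linarith

/-! ### construction of solutions and of coefficient sequences -/

/-- the solution with given initial values -/
noncomputable def sol (α : ℕ → ℝ) (u v : ℝ) : ℕ → ℝ × ℝ
  | 0 => (u, v)
  | n + 1 => ((sol α u v n).2, (α n + (sol α u v n).2) / (sol α u v n).1)

lemma exists_solution (α : ℕ → ℝ) (u v : ℝ) (hu : 0 < u) (hv : 0 < v) :
    ∃ x : ℕ → ℝ, IsPosSolution α x ∧ x 0 = u ∧ x 1 = v := by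
  refine ⟨fun n => (sol α u v n).1, ⟨hu, hv, fun n => ?_⟩, rfl, rfl⟩
  simp only [sol]

lemma leastPeriod_of_unique (w : ℕ → ℝ) (p i : ℕ) (hi : i < p)
    (h : ∀ j, j < p → j ≠ i → w j ≠ w i) : LeastPeriod (fun n => w (n % p)) p := by
  refine ⟨by omega, fun n => by simp, fun q hq0 hqp hq => ?_⟩
  have h1 := hq i
  simp only at h1
  rw [Nat.mod_eq_of_lt hi] at h1
  by_contra
  have h2 : (i + q) % p = i := by
    by_contra hne
    exact h _ (Nat.mod_lt _ (by omega)) hne h1
  rcases Nat.lt_or_ge (i + q) p with hlt | hge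
  · rw [Nat.mod_eq_of_lt hlt] at h2
    omega
  · rw [Nat.mod_eq_sub_mod hge, Nat.mod_eq_of_lt (by omega)] at h2
    omega

/-! ### multiples of five -/

lemma five_block {α x : ℕ → ℝ} (hα : ∀ n, 0 ≤ α n) (h : IsPosSolution α x) (n : ℕ)
    (h0 : α n = 1) (h1 : α (n + 1) = 1) (h2 : α (n + 2) = 1) (h3 : α (n + 3) = 1) :
    x (n + 5) = x n ∧ x (n + 6) = x (n + 1) * (α (n + 4) + x n) / (1 + x n) := by
  have hpos := pos_all hα h
  have p0 := hpos n
  have p1 := hpos (n + 1)
  have e2 := h.2.2 n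
  have e3 := h.2.2 (n + 1)
  have e4 := h.2.2 (n + 2)
  have e5 := h.2.2 (n + 3)
  have e6 := h.2.2 (n + 4)
  rw [h0] at e2
  rw [h1, show n + 1 + 2 = n + 3 by ring, show n + 1 + 1 = n + 2 by ring] at e3
  rw [h2, show n + 2 + 2 = n + 4 by ring, show n + 2 + 1 = n + 3 by ring] at e4
  rw [h3, show n + 3 + 2 = n + 5 by ring, show n + 3 + 1 = n + 4 by ring] at e5
  rw [show n + 4 + 2 = n + 6 by ring, show n + 4 + 1 = n + 5 by ring] at e6
  generalize x n = X at *
  generalize x (n + 1) = Y at *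
  have f3 : x (n + 3) = (1 + X + Y) / (X * Y) := by
    rw [e3, e2]; field_simp; ring
  have f4 : x (n + 4) = (1 + X) / Y := by
    rw [e4, f3, e2]
    have : 0 < 1 + Y := by linarith
    have : 0 < 1 + X + Y := by linarith
    field_simp
    ring
  have f5 : x (n + 5) = X := by
    rw [e5, f4, f3]
    have : 0 < 1 + X + Y := by linarith
    field_simp
    ring
  refine ⟨f5, ?_⟩
  rw [e6, f5, f4]
  have : 0 < 1 + X := by linarith
  field_simp

lemma not_good_five (c : ℕ) (hc : 0 < c) : ¬ Good (5 * c) := by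
  intro hgood
  obtain ⟨w, hw⟩ : ∃ w : ℕ → ℝ, w = fun i => if i = 5 * c - 1 then 3 else 1 := ⟨_, rfl⟩
  have hper := leastPeriod_of_unique w (5 * c) (5 * c - 1) (by omega) (by
    intro j hj hne
    rw [hw]
    simp [hne])
  have hα : ∀ n, 0 ≤ (fun n => w (n % (5 * c))) n := by
    intro n
    simp only [hw]
    split_ifs <;> norm_num
  obtain ⟨x, hx, hx0, hx1⟩ := exists_solution (fun n => w (n % (5 * c))) 1 1 one_pos one_pos
  obtain ⟨C, hC⟩ := hgood _ hα hper x hx
  have key : ∀ j, x (5 * j) = 1 ∧ x (5 * j + 1) = 2 ^ (j / c) := by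
    intro j
    induction j with
    | zero => simp [hx0, hx1]
    | succ j ih =>
      have hval : ∀ i, i < 5 → (5 * j + i) % (5 * c) = 5 * (j % c) + i := by
        intro i hi
        have h1 : 5 * j + i = 5 * c * (j / c) + (5 * (j % c) + i) := by
          have := Nat.div_add_mod j c
          calc 5 * j + i = 5 * (c * (j / c) + j % c) + i := by rw [this]
            _ = _ := by ring
        have h2 : j % c < c := Nat.mod_lt _ hc
        rw [h1, Nat.mul_add_mod, Nat.mod_eq_of_lt (by omega)]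
      have h2 : j % c < c := Nat.mod_lt _ hc
      have hw1 : ∀ i, i < 4 → (fun n => w (n % (5 * c))) (5 * j + i) = 1 := by
        intro i hi
        simp only
        rw [hval i (by omega), hw]
        simp only
        rw [if_neg (by omega)]
      have hb := five_block hα hx (5 * j) (hw1 0 (by norm_num)) (hw1 1 (by norm_num))
        (hw1 2 (by norm_num)) (hw1 3 (by norm_num))
      rw [show 5 * (j + 1) = 5 * j + 5 by ring, show 5 * j + 5 + 1 = 5 * j + 6 by ring]
      refine ⟨hb.1.trans ih.1, ?_⟩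
      rw [hb.2, ih.1, ih.2]
      rw [hval 4 (by norm_num), hw]
      simp only
      rw [Nat.succ_div]
      by_cases hd : c ∣ j + 1
      · have h3 : j % c = c - 1 := by
          obtain ⟨d, hd⟩ := hd
          have hd0 : 0 < d := by
            rcases Nat.eq_zero_or_pos d with h | h
            · rw [h] at hd; omega
            · exact h
          have : j = c * (d - 1) + (c - 1) := by
            have h5 : c * d = c * (d - 1) + c := by
              rw [← Nat.mul_succ]
              congr 1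
              omega
            omega
          rw [this, Nat.mul_add_mod, Nat.mod_eq_of_lt (by omega)]
        rw [if_pos (by omega), if_pos hd, pow_add]
        norm_num
        ring
      · have h3 : j % c ≠ c - 1 := by
          intro h4
          apply hd
          have := Nat.div_add_mod j c
          refine ⟨j / c + 1, ?_⟩
          rw [Nat.mul_add, mul_one]
          omega
        rw [if_neg (by omega), if_neg hd]
        norm_num
  obtain ⟨m, hm⟩ := pow_unbounded_of_one_lt C (one_lt_two : (1 : ℝ) < 2)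
  have h1 := (key (c * m)).2
  rw [Nat.mul_div_cancel_left m hc] at h1
  have h2 := hC (5 * (c * m) + 1)
  rw [h1] at h2
  linarith

/-! ### periods `3 a + 5 c` -/

/-- state invariant: `(x_n, x_{n+1})` is `(1/2, y)` with `y` large or `(2, y)` with `y` small -/
def Inv (M u v : ℝ) : Prop := (u = 1 / 2 ∧ M ≤ v) ∨ (u = 2 ∧ M * v ≤ 3)

lemma three_block {α x : ℕ → ℝ} (hα : ∀ n, 0 ≤ α n) (h : IsPosSolution α x) (n : ℕ)
    (h0 : α n = 0) (h1 : α (n + 1) = 0) (h2 : 2 ≤ α (n + 2)) (h3 : α (n + 2) ≤ 3) (M : ℝ)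
    (hM : 0 < M) (hI : Inv M (x n) (x (n + 1))) :
    Inv (6 / 5 * M) (x (n + 3)) (x (n + 4)) ∧ (x n = 2 → x (n + 3) = 1 / 2) := by
  have hpos := pos_all hα h
  have p0 := hpos n
  have p1 := hpos (n + 1)
  have e2 := h.2.2 n
  have e3 := h.2.2 (n + 1)
  have e4 := h.2.2 (n + 2)
  rw [h0] at e2
  rw [h1, show n + 1 + 2 = n + 3 by ring, show n + 1 + 1 = n + 2 by ring] at e3
  rw [show n + 2 + 2 = n + 4 by ring, show n + 2 + 1 = n + 3 by ring] at e4
  generalize x n = X at *
  generalize x (n + 1) = Y at *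
  generalize α (n + 2) = g at *
  have f3 : x (n + 3) = 1 / X := by
    rw [e3, e2]; field_simp; ring
  have f4 : x (n + 4) = (1 + g * X) / Y := by
    rw [e4, f3, e2]
    field_simp
    ring
  rw [f3, f4]
  refine ⟨?_, fun hX => by rw [hX]⟩
  rcases hI with ⟨hX, hY⟩ | ⟨hX, hY⟩
  · right
    rw [hX]
    refine ⟨by norm_num, ?_⟩
    rw [← mul_div_assoc, div_le_iff₀ p1]
    have : 6 / 5 * M * (1 + g * (1 / 2)) ≤ 6 / 5 * M * (5 / 2) := by
      apply mul_le_mul_of_nonneg_left _ (by positivity)
      linarith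
    linarith
  · left
    rw [hX]
    refine ⟨by norm_num, ?_⟩
    rw [le_div_iff₀ p1]
    nlinarith

lemma not_good_mixed (a c : ℕ) (ha : 0 < a) : ¬ Good (3 * a + 5 * c) := by
  intro hgood
  obtain ⟨p, hp⟩ : ∃ p, p = 3 * a + 5 * c := ⟨_, rfl⟩
  rw [← hp] at hgood
  obtain ⟨w, hw⟩ : ∃ w : ℕ → ℝ, w = fun i => if i < 3 * a then
    (if i % 3 = 2 then (if i = 3 * a - 1 then 3 else 2) else 0) else 1 := ⟨_, rfl⟩
  have hwtop : w (3 * a - 1) = 3 := by
    rw [hw]
    simp only
    rw [if_pos (by omega), if_pos (by omega)]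
    simp
  have hper := leastPeriod_of_unique w p (3 * a - 1) (by omega) (by
    intro j hj hne
    rw [hwtop, hw]
    simp only
    split_ifs <;> norm_num)
  obtain ⟨α, hαd⟩ : ∃ α : ℕ → ℝ, α = fun n => w (n % p) := ⟨_, rfl⟩
  rw [← hαd] at hper
  have hα : ∀ n, 0 ≤ α n := by
    intro n
    rw [hαd, hw]
    simp only
    split_ifs <;> norm_num
  obtain ⟨x, hx, hx0, hx1⟩ := exists_solution α (1 / 2) 1 (by norm_num) one_pos
  obtain ⟨C, hC⟩ := hgood _ hα hper x hx
  have hαv : ∀ k i, i < p → α (p * k + i) = w i := by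
    intro k i hi
    rw [hαd]
    simp only
    rw [Nat.mul_add_mod, Nat.mod_eq_of_lt hi]
  -- three-blocks
  have hthree : ∀ k j (M : ℝ), j < a → 0 < M → Inv M (x (p * k + 3 * j)) (x (p * k + 3 * j + 1)) →
      Inv (6 / 5 * M) (x (p * k + 3 * (j + 1))) (x (p * k + 3 * (j + 1) + 1)) ∧
      (x (p * k + 3 * j) = 2 → x (p * k + 3 * (j + 1)) = 1 / 2) := by
    intro k j M hj hM hI
    have h0 : α (p * k + 3 * j) = 0 := by
      rw [hαv k (3 * j) (by omega), hw]
      simp only
      rw [if_pos (by omega), if_neg (by omega)]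
    have h1 : α (p * k + 3 * j + 1) = 0 := by
      rw [show p * k + 3 * j + 1 = p * k + (3 * j + 1) by ring, hαv k (3 * j + 1) (by omega), hw]
      simp only
      rw [if_pos (by omega), if_neg (by omega)]
    have h2 : 2 ≤ α (p * k + 3 * j + 2) ∧ α (p * k + 3 * j + 2) ≤ 3 := by
      rw [show p * k + 3 * j + 2 = p * k + (3 * j + 2) by ring, hαv k (3 * j + 2) (by omega), hw]
      simp only
      rw [if_pos (by omega), if_pos (by omega)]
      split_ifs <;> constructor <;> norm_num
    exact three_block hα hx (p * k + 3 * j) h0 h1 h2.1 h2.2 M hM hI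
  -- five-blocks
  have hfive : ∀ k j, j < c → x (p * k + 3 * a + 5 * (j + 1)) = x (p * k + 3 * a + 5 * j) ∧
      x (p * k + 3 * a + 5 * (j + 1) + 1) = x (p * k + 3 * a + 5 * j + 1) := by
    intro k j hj
    have h1 : ∀ i, i < 5 → α (p * k + 3 * a + 5 * j + i) = 1 := by
      intro i hi
      rw [show p * k + 3 * a + 5 * j + i = p * k + (3 * a + 5 * j + i) by ring,
        hαv k (3 * a + 5 * j + i) (by omega), hw]
      simp only
      rw [if_neg (by omega)]
    have hb := five_block hα hx (p * k + 3 * a + 5 * j) (h1 0 (by norm_num)) (h1 1 (by norm_num))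
      (h1 2 (by norm_num)) (h1 3 (by norm_num))
    refine ⟨hb.1, ?_⟩
    have e : p * k + 3 * a + 5 * (j + 1) + 1 = p * k + 3 * a + 5 * j + 6 := by ring
    rw [e, hb.2, h1 4 (by norm_num)]
    have := pos_all hα hx (p * k + 3 * a + 5 * j)
    field_simp
  have hstep : ∀ k, Inv ((6 / 5) ^ k) (x (p * k)) (x (p * k + 1)) := by
    intro k
    induction k with
    | zero =>
      left
      rw [mul_zero, zero_add, hx0, hx1]
      norm_num
    | succ k ih =>
      have h1 : ∀ j, j ≤ a → Inv ((6 / 5) ^ (k + j)) (x (p * k + 3 * j)) (x (p * k + 3 * j + 1)) := by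
        intro j
        induction j with
        | zero => intro _; simpa using ih
        | succ j ih2 =>
          intro hj
          have h3 := (hthree k j ((6 / 5) ^ (k + j)) (by omega) (by positivity)
            (ih2 (by omega))).1
          have e : (6 / 5 : ℝ) ^ (k + (j + 1)) = 6 / 5 * (6 / 5) ^ (k + j) := by
            rw [← add_assoc, pow_succ]; ring
          rw [e]
          exact h3
      have h2 : ∀ j, j ≤ c → x (p * k + 3 * a + 5 * j) = x (p * k + 3 * a) ∧
          x (p * k + 3 * a + 5 * j + 1) = x (p * k + 3 * a + 1) := by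
        intro j
        induction j with
        | zero => intro _; exact ⟨rfl, rfl⟩
        | succ j ih2 =>
          intro hj
          have h3 := hfive k j (by omega)
          have h4 := ih2 (by omega)
          exact ⟨h3.1.trans h4.1, h3.2.trans h4.2⟩
      have h3 := h2 c le_rfl
      have h4 := h1 a le_rfl
      have e : p * (k + 1) = p * k + 3 * a + 5 * c := by rw [hp]; ring
      rw [e, h3.1, h3.2]
      have h5 : (6 / 5 : ℝ) ^ (k + 1) ≤ (6 / 5) ^ (k + a) :=
        pow_le_pow_right₀ (by norm_num) (by omega)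
      rcases h4 with ⟨g1, g2⟩ | ⟨g1, g2⟩
      · exact Or.inl ⟨g1, h5.trans g2⟩
      · right
        refine ⟨g1, le_trans ?_ g2⟩
        exact mul_le_mul_of_nonneg_right h5 (pos_all hα hx _).le
  obtain ⟨m, hm⟩ := pow_unbounded_of_one_lt C (by norm_num : (1 : ℝ) < 6 / 5)
  have h0 := hstep m
  rcases h0 with ⟨g1, g2⟩ | ⟨g1, g2⟩
  · have := hC (p * m + 1)
    linarith
  · have h1 := hthree m 0 ((6 / 5) ^ m) ha (by positivity) (by
      rw [mul_zero, add_zero]; exact Or.inr ⟨g1, g2⟩)
    have h2 := h1.2 (by rw [mul_zero, add_zero]; exact g1)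
    rcases h1.1 with ⟨k1, k2⟩ | ⟨k1, k2⟩
    · have h3 := hC (p * m + 3 * (0 + 1) + 1)
      have h4 : (6 / 5 : ℝ) ^ m ≤ 6 / 5 * (6 / 5) ^ m := by
        have : (0 : ℝ) < (6 / 5) ^ m := by positivity
        linarith
      linarith
    · rw [h2] at k1
      norm_num at k1

/-! ### logarithmic estimates -/

lemma log_step_big (l t : ℝ) (h : l ≤ t) : ∃ e : ℝ, 0 ≤ e ∧ e ≤ 1 ∧
    Real.log (Real.exp l + Real.exp t) = t + e := by
  refine ⟨Real.log (Real.exp l + Real.exp t) - t, ?_, ?_, by ring⟩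
  · have h1 : Real.log (Real.exp t) ≤ Real.log (Real.exp l + Real.exp t) :=
      Real.log_le_log (Real.exp_pos _) (by linarith [Real.exp_pos l])
    rw [Real.log_exp] at h1
    linarith
  · have h1 : Real.log (Real.exp l + Real.exp t) ≤ Real.log (Real.exp (t + 1)) := by
      apply Real.log_le_log (by positivity)
      have h2 : Real.exp l ≤ Real.exp t := Real.exp_le_exp.2 h
      have h3 : (2 : ℝ) ≤ Real.exp 1 := by
        have := Real.add_one_le_exp (1 : ℝ)
        linarith
      rw [Real.exp_add]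
      nlinarith [Real.exp_pos t]
    rw [Real.log_exp] at h1
    linarith

lemma log_step_small (l t : ℝ) (h : t ≤ l) : ∃ e : ℝ, 0 ≤ e ∧ e ≤ 1 ∧
    Real.log (Real.exp l + Real.exp t) = l + e := by
  rw [add_comm]
  exact log_step_big t l h

lemma log_zero {α x : ℕ → ℝ} (hα : ∀ n, 0 ≤ α n) (h : IsPosSolution α x) (n : ℕ)
    (h0 : α n = 0) : Real.log (x (n + 2)) = Real.log (x (n + 1)) - Real.log (x n) := by
  have hpos := pos_all hα h
  rw [h.2.2 n, h0, zero_add, Real.log_div (hpos _).ne' (hpos _).ne']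

lemma log_big {α x : ℕ → ℝ} (hα : ∀ n, 0 ≤ α n) (h : IsPosSolution α x) (n : ℕ) (l : ℝ)
    (h0 : α n = Real.exp l) (hl : l ≤ Real.log (x (n + 1))) :
    ∃ e : ℝ, 0 ≤ e ∧ e ≤ 1 ∧
      Real.log (x (n + 2)) = Real.log (x (n + 1)) + e - Real.log (x n) := by
  have hpos := pos_all hα h
  obtain ⟨e, he0, he1, he⟩ := log_step_big l (Real.log (x (n + 1))) hl
  refine ⟨e, he0, he1, ?_⟩
  have h1 : 0 < α n + x (n + 1) := by linarith [hα n, hpos (n + 1)]
  rw [h.2.2 n, Real.log_div h1.ne' (hpos _).ne', h0, ← he, Real.exp_log (hpos _)]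

lemma log_small {α x : ℕ → ℝ} (hα : ∀ n, 0 ≤ α n) (h : IsPosSolution α x) (n : ℕ) (l : ℝ)
    (h0 : α n = Real.exp l) (hl : Real.log (x (n + 1)) ≤ l) :
    ∃ e : ℝ, 0 ≤ e ∧ e ≤ 1 ∧ Real.log (x (n + 2)) = l + e - Real.log (x n) := by
  have hpos := pos_all hα h
  obtain ⟨e, he0, he1, he⟩ := log_step_small l (Real.log (x (n + 1))) hl
  refine ⟨e, he0, he1, ?_⟩
  have h1 : 0 < α n + x (n + 1) := by linarith [hα n, hpos (n + 1)]
  rw [h.2.2 n, Real.log_div h1.ne' (hpos _).ne', h0, ← he, Real.exp_log (hpos _)]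

lemma not_good_four : ¬ Good 4 := by
  intro hgood
  obtain ⟨w, hw⟩ : ∃ w : ℕ → ℝ, w = fun i => if i = 0 then Real.exp 100 else
    if i = 2 then Real.exp (-100) else 0 := ⟨_, rfl⟩
  have hper := leastPeriod_of_unique w 4 0 (by norm_num) (by
    intro j hj hne
    rw [hw]
    simp only [hne, if_false, if_true]
    have h1 : Real.exp (-100) < Real.exp 100 := Real.exp_lt_exp.2 (by norm_num)
    have h2 := Real.exp_pos 100
    split_ifs
    · exact h1.ne
    · exact h2.ne)
  obtain ⟨α, hαd⟩ : ∃ α : ℕ → ℝ, α = fun n => w (n % 4) := ⟨_, rfl⟩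
  rw [← hαd] at hper
  have hα : ∀ n, 0 ≤ α n := by
    intro n
    rw [hαd, hw]
    simp only
    split_ifs <;> positivity
  obtain ⟨x, hx, hx0, hx1⟩ := exists_solution α (Real.exp 2000) (Real.exp 1000)
    (Real.exp_pos _) (Real.exp_pos _)
  obtain ⟨C, hC⟩ := hgood _ hα hper x hx
  have ha0 : ∀ k, α (4 * k) = Real.exp 100 := by
    intro k
    rw [hαd, hw]
    simp only
    rw [if_pos (by omega)]
  have ha1 : ∀ k, α (4 * k + 1) = 0 := by
    intro k
    rw [hαd, hw]
    simp only
    rw [if_neg (by omega), if_neg (by omega)]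
  have ha2 : ∀ k, α (4 * k + 2) = Real.exp (-100) := by
    intro k
    rw [hαd, hw]
    simp only
    rw [if_neg (by omega), if_pos (by omega)]
  have ha3 : ∀ k, α (4 * k + 3) = 0 := by
    intro k
    rw [hαd, hw]
    simp only
    rw [if_neg (by omega), if_neg (by omega)]
  -- sixteen steps
  have key : ∀ k, 1000 + k ≤ Real.log (x (16 * k + 1)) ∧
      Real.log (x (16 * k + 1)) + 1000 ≤ Real.log (x (16 * k)) := by
    intro k
    induction k with
    | zero =>
      rw [mul_zero, zero_add, hx0, hx1, Real.log_exp, Real.log_exp]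
      norm_num
    | succ k ih =>
      obtain ⟨m, hm⟩ : ∃ m, m = 4 * k := ⟨_, rfl⟩
      have em : 16 * k = 4 * m := by omega
      rw [em] at ih
      have e1 : 16 * (k + 1) = 4 * m + 16 := by omega
      rw [e1]
      obtain ⟨i1, i2⟩ := ih
      have i0 : (0 : ℝ) ≤ k := Nat.cast_nonneg k
      obtain ⟨d0, p0, q0, r2⟩ := log_big hα hx (4 * m) 100 (ha0 m) (by linarith)
      have r3 := log_zero hα hx (4 * m + 1) (ha1 m)
      simp only [add_assoc, Nat.reduceAdd] at r2 r3 ⊢
      obtain ⟨d2, p2, q2, r4⟩ := log_small hα hx (4 * m + 2) (-100) (ha2 m) (by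
        simp only [add_assoc, Nat.reduceAdd]; linarith)
      have r5 := log_zero hα hx (4 * m + 3) (ha3 m)
      simp only [add_assoc, Nat.reduceAdd] at r4 r5
      obtain ⟨d4, p4, q4, r6⟩ := log_big hα hx (4 * m + 4) 100 (ha0 (m + 1)) (by
        simp only [add_assoc, Nat.reduceAdd]; linarith)
      have r7 := log_zero hα hx (4 * m + 5) (ha1 (m + 1))
      simp only [add_assoc, Nat.reduceAdd] at r6 r7
      obtain ⟨d6, p6, q6, r8⟩ := log_small hα hx (4 * m + 6) (-100) (ha2 (m + 1)) (by
        simp only [add_assoc, Nat.reduceAdd]; linarith)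
      have r9 := log_zero hα hx (4 * m + 7) (ha3 (m + 1))
      simp only [add_assoc, Nat.reduceAdd] at r8 r9
      obtain ⟨d8, p8, q8, r10⟩ := log_small hα hx (4 * m + 8) 100 (ha0 (m + 2)) (by
        simp only [add_assoc, Nat.reduceAdd]; linarith)
      have r11 := log_zero hα hx (4 * m + 9) (ha1 (m + 2))
      simp only [add_assoc, Nat.reduceAdd] at r10 r11
      obtain ⟨d10, p10, q10, r12⟩ := log_big hα hx (4 * m + 10) (-100) (ha2 (m + 2)) (by
        simp only [add_assoc, Nat.reduceAdd]; linarith)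
      have r13 := log_zero hα hx (4 * m + 11) (ha3 (m + 2))
      simp only [add_assoc, Nat.reduceAdd] at r12 r13
      obtain ⟨d12, p12, q12, r14⟩ := log_small hα hx (4 * m + 12) 100 (ha0 (m + 3)) (by
        simp only [add_assoc, Nat.reduceAdd]; linarith)
      have r15 := log_zero hα hx (4 * m + 13) (ha1 (m + 3))
      simp only [add_assoc, Nat.reduceAdd] at r14 r15
      obtain ⟨d14, p14, q14, r16⟩ := log_big hα hx (4 * m + 14) (-100) (ha2 (m + 3)) (by
        simp only [add_assoc, Nat.reduceAdd]; linarith)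
      have r17 := log_zero hα hx (4 * m + 15) (ha3 (m + 3))
      simp only [add_assoc, Nat.reduceAdd] at r16 r17
      push_cast
      constructor
      · linarith
      · linarith
  have hCpos : 0 < C := lt_of_lt_of_le (pos_all hα hx 0) (hC 0)
  obtain ⟨k, hk⟩ := exists_nat_gt (Real.log C)
  have h1 := (key k).1
  have h2 : Real.log (x (16 * k + 1)) ≤ Real.log C :=
    Real.log_le_log (pos_all hα hx _) (hC _)
  linarith

lemma not_good_seven : ¬ Good 7 := by
  intro hgood
  obtain ⟨w, hw⟩ : ∃ w : ℕ → ℝ, w = fun i => if i = 6 then Real.exp 1 else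
    if i = 1 ∨ i = 3 ∨ i = 5 then Real.exp 0 else 0 := ⟨_, rfl⟩
  have hper := leastPeriod_of_unique w 7 6 (by norm_num) (by
    intro j hj hne
    rw [hw]
    simp only [hne, if_false, if_true]
    have h1 : Real.exp 0 < Real.exp 1 := Real.exp_lt_exp.2 (by norm_num)
    have h2 := Real.exp_pos 1
    split_ifs
    · exact h1.ne
    · exact h2.ne)
  obtain ⟨α, hαd⟩ : ∃ α : ℕ → ℝ, α = fun n => w (n % 7) := ⟨_, rfl⟩
  rw [← hαd] at hper
  have hα : ∀ n, 0 ≤ α n := by
    intro n
    rw [hαd, hw]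
    simp only
    split_ifs <;> positivity
  obtain ⟨x, hx, hx0, hx1⟩ := exists_solution α (Real.exp 1000) (Real.exp 2000)
    (Real.exp_pos _) (Real.exp_pos _)
  obtain ⟨C, hC⟩ := hgood _ hα hper x hx
  have hz : ∀ k i, (i = 0 ∨ i = 2 ∨ i = 4) → α (7 * k + i) = 0 := by
    intro k i hi
    rw [hαd, hw]
    simp only
    rw [if_neg (by omega), if_neg (by omega)]
  have ho : ∀ k i, (i = 1 ∨ i = 3 ∨ i = 5) → α (7 * k + i) = Real.exp 0 := by
    intro k i hi
    rw [hαd, hw]
    simp only
    rw [if_neg (by omega), if_pos (by omega)]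
  have hs : ∀ k, α (7 * k + 6) = Real.exp 1 := by
    intro k
    rw [hαd, hw]
    simp only
    rw [if_pos (by omega)]
  -- twenty-one steps
  have key : ∀ k, 1000 + k ≤ Real.log (x (21 * k)) ∧
      Real.log (x (21 * k)) + 1000 ≤ Real.log (x (21 * k + 1)) := by
    intro k
    induction k with
    | zero =>
      rw [mul_zero, zero_add, hx0, hx1, Real.log_exp, Real.log_exp]
      norm_num
    | succ k ih =>
      obtain ⟨m, hm⟩ : ∃ m, m = 3 * k := ⟨_, rfl⟩
      have em : 21 * k = 7 * m := by omega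
      rw [em] at ih
      have e1 : 21 * (k + 1) = 7 * m + 21 := by omega
      rw [e1]
      obtain ⟨i1, i2⟩ := ih
      have i0 : (0 : ℝ) ≤ k := Nat.cast_nonneg k
      have r2 := log_zero hα hx (7 * m) (hz m 0 (by simp))
      obtain ⟨d1, p1, q1, r3⟩ := log_big hα hx (7 * m + 1) 0 (ho m 1 (by simp)) (by
        simp only [add_assoc, Nat.reduceAdd]; linarith)
      simp only [add_assoc, Nat.reduceAdd] at r2 r3 ⊢
      have r4 := log_zero hα hx (7 * m + 2) (hz m 2 (by simp))
      simp only [add_assoc, Nat.reduceAdd] at r4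
      obtain ⟨d3, p3, q3, r5⟩ := log_small hα hx (7 * m + 3) 0 (ho m 3 (by simp)) (by
        simp only [add_assoc, Nat.reduceAdd]; linarith)
      have r6 := log_zero hα hx (7 * m + 4) (hz m 4 (by simp))
      simp only [add_assoc, Nat.reduceAdd] at r5 r6
      obtain ⟨d5, p5, q5, r7⟩ := log_big hα hx (7 * m + 5) 0 (ho m 5 (by simp)) (by
        simp only [add_assoc, Nat.reduceAdd]; linarith)
      simp only [add_assoc, Nat.reduceAdd] at r7
      obtain ⟨d6, p6, q6, r8⟩ := log_big hα hx (7 * m + 6) 1 (hs m) (by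
        simp only [add_assoc, Nat.reduceAdd]; linarith)
      simp only [add_assoc, Nat.reduceAdd] at r8
      -- second period
      have r9 := log_zero hα hx (7 * m + 7) (hz (m + 1) 0 (by simp))
      simp only [add_assoc, Nat.reduceAdd] at r9
      obtain ⟨d8, p8, q8, r10⟩ := log_small hα hx (7 * m + 8) 0 (ho (m + 1) 1 (by simp)) (by
        simp only [add_assoc, Nat.reduceAdd]; linarith)
      have r11 := log_zero hα hx (7 * m + 9) (hz (m + 1) 2 (by simp))
      simp only [add_assoc, Nat.reduceAdd] at r10 r11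
      obtain ⟨d10, p10, q10, r12⟩ := log_big hα hx (7 * m + 10) 0 (ho (m + 1) 3 (by simp)) (by
        simp only [add_assoc, Nat.reduceAdd]; linarith)
      have r13 := log_zero hα hx (7 * m + 11) (hz (m + 1) 4 (by simp))
      simp only [add_assoc, Nat.reduceAdd] at r12 r13
      obtain ⟨d12, p12, q12, r14⟩ := log_small hα hx (7 * m + 12) 0 (ho (m + 1) 5 (by simp)) (by
        simp only [add_assoc, Nat.reduceAdd]; linarith)
      simp only [add_assoc, Nat.reduceAdd] at r14
      obtain ⟨d13, p13, q13, r15⟩ := log_small hα hx (7 * m + 13) 1 (hs (m + 1)) (by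
        simp only [add_assoc, Nat.reduceAdd]; linarith)
      simp only [add_assoc, Nat.reduceAdd] at r15
      -- third period
      have r16 := log_zero hα hx (7 * m + 14) (hz (m + 2) 0 (by simp))
      simp only [add_assoc, Nat.reduceAdd] at r16
      obtain ⟨d15, p15, q15, r17⟩ := log_big hα hx (7 * m + 15) 0 (ho (m + 2) 1 (by simp)) (by
        simp only [add_assoc, Nat.reduceAdd]; linarith)
      have r18 := log_zero hα hx (7 * m + 16) (hz (m + 2) 2 (by simp))
      simp only [add_assoc, Nat.reduceAdd] at r17 r18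
      obtain ⟨d17, p17, q17, r19⟩ := log_small hα hx (7 * m + 17) 0 (ho (m + 2) 3 (by simp)) (by
        simp only [add_assoc, Nat.reduceAdd]; linarith)
      have r20 := log_zero hα hx (7 * m + 18) (hz (m + 2) 4 (by simp))
      simp only [add_assoc, Nat.reduceAdd] at r19 r20
      obtain ⟨d19, p19, q19, r21⟩ := log_small hα hx (7 * m + 19) 0 (ho (m + 2) 5 (by simp)) (by
        simp only [add_assoc, Nat.reduceAdd]; linarith)
      simp only [add_assoc, Nat.reduceAdd] at r21
      obtain ⟨d20, p20, q20, r22⟩ := log_big hα hx (7 * m + 20) 1 (hs (m + 2)) (by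
        simp only [add_assoc, Nat.reduceAdd]; linarith)
      simp only [add_assoc, Nat.reduceAdd] at r22
      push_cast
      constructor
      · linarith
      · linarith
  have hCpos : 0 < C := lt_of_lt_of_le (pos_all hα hx 0) (hC 0)
  obtain ⟨k, hk⟩ := exists_nat_gt (Real.log C)
  have h1 := (key k).1
  have h2 : Real.log (x (21 * k)) ≤ Real.log C :=
    Real.log_le_log (pos_all hα hx _) (hC _)
  linarith

/-- **Answer to Q1**: an integer `p ≥ 2` is good if and only if `p = 2`. -/
theorem result (p : ℕ) (hp : 2 ≤ p) : Good p ↔ p = 2 := by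
  constructor
  · intro hgood
    by_contra hne
    have h4 : p ≠ 4 := by rintro rfl; exact not_good_four hgood
    have h7 : p ≠ 7 := by rintro rfl; exact not_good_seven hgood
    by_cases h5 : p % 5 = 0
    · obtain ⟨c, hc⟩ := Nat.dvd_of_mod_eq_zero h5
      rw [hc] at hgood
      exact not_good_five c (by omega) hgood
    · have h10 : p ≠ 10 := by rintro rfl; norm_num at h5
      have h5' : p ≠ 5 := by rintro rfl; norm_num at h5
      obtain ⟨a, c, ha, hpe⟩ : ∃ a c, 0 < a ∧ p = 3 * a + 5 * c := by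
        rcases (by omega : p % 3 = 0 ∨ p % 3 = 1 ∨ p % 3 = 2) with h | h | h
        · exact ⟨p / 3, 0, by omega, by omega⟩
        · exact ⟨(p - 10) / 3, 2, by omega, by omega⟩
        · exact ⟨(p - 5) / 3, 1, by omega, by omega⟩
      rw [hpe] at hgood
      exact not_good_mixed a c ha hgood
  · rintro rfl
    exact good_two

end Pool.Agent.Results.MP_e65cda_an.OnlyPeriodTwo
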